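import Pool.Agent.Y7.LN.Stm

/-!
Project LN: the energy at the time `0+`.
-/

open Set Filter Topology MeasureTheory Metric

set_option autoImplicit false

namespace Pool.Agent.Y810.LN

open Pool.Agent.Y5.D (Ix)
open Pool.Agent.Y303.EJ (dl)

theorem dl_tendsto (η : ℝ) : Tendsto (fun n => dl η n) atTop (𝓝 0) := by
  have h : Tendsto (fun n : ℕ => η * (1 / 4 : ℝ) ^ n) atTop (𝓝 (η * 0)) :=
    (tendsto_pow_atTop_nhds_zero_of_lt_one (by norm_num) (by norm_num)).const_mul η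
  rw [mul_zero] at h
  refine h.congr fun n => ?_
  simp [dl, div_eq_mul_inv]

theorem t_LIM0 : Pool.Agent.Y7.LN.S_LIM0 := by
  intro J η c Θ w y z hΘ hη hc hw hy hz hE hanti hx
  have hup : ∀ᶠ t in 𝓝[>] (0 : ℝ), t ∈ Ioc (0 : ℝ) Θ := Ioc_mem_nhdsGT hΘ
  refine tendsto_order.2 ⟨fun a' ha' => ?_, fun a' ha' => ?_⟩
  · set E0 : ℝ := ∑' a, y a ^ 2 + c ^ 2 with hE0
    set e : ℝ := (E0 - a') / 4 with he
    have he0 : 0 < e := by rw [he]; linarith
    -- a finite set of modes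
    obtain ⟨F, hF⟩ : ∃ F : Finset (Ix J), ∑' a, y a ^ 2 - e < ∑ a ∈ F, y a ^ 2 := by
      have := (tendsto_order.1 hy.hasSum).1 (∑' a, y a ^ 2 - e) (by linarith)
      exact this.exists
    have hzi : ∀ i, Tendsto (fun t => z i t) (𝓝[>] 0) (𝓝 (y i)) := by
      intro i
      obtain ⟨P, hP⟩ := hz i
      rw [tendsto_iff_norm_sub_tendsto_zero]
      have hid : Tendsto (fun t : ℝ => P * t) (𝓝[>] 0) (𝓝 0) := by
        have h0 : Tendsto (fun t : ℝ => P * t) (𝓝 0) (𝓝 (P * 0)) :=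
          (continuous_const.mul continuous_id).tendsto 0
        rw [mul_zero] at h0
        exact h0.mono_left nhdsWithin_le_nhds
      refine squeeze_zero' (Eventually.of_forall fun t => norm_nonneg _) ?_ hid
      filter_upwards [hup] with t ht
      rw [Real.norm_eq_abs]
      exact hP t ⟨ht.1.le, ht.2⟩
    have hsum : Tendsto (fun t => ∑ i ∈ F, z i t ^ 2) (𝓝[>] 0) (𝓝 (∑ i ∈ F, y i ^ 2)) :=
      tendsto_finsetSum _ fun i _ => (hzi i).pow 2
    have hev := (tendsto_order.1 hsum).1 (∑' a, y a ^ 2 - e) hF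
    obtain ⟨δ, hδ, hsub⟩ := mem_nhdsGT_iff_exists_Ioo_subset.1 hev
    have hδ0 : 0 < δ := hδ
    -- a mode of high index
    have hdl := dl_tendsto η
    have h1 : ∀ᶠ n in atTop, w n < δ := (tendsto_order.1 hw).2 δ hδ0
    have h2 : ∀ᶠ n in atTop, 0 < c - dl η n / 100 := by
      have := (tendsto_order.1 hdl).2 (1 : ℝ) (by norm_num)
      filter_upwards [this] with n hn
      linarith
    have h3 : ∀ᶠ n in atTop, c ^ 2 - e < (c - dl η n / 100) ^ 2 := by
      have ht : Tendsto (fun n => (c - dl η n / 100) ^ 2) atTop (𝓝 ((c - 0 / 100) ^ 2)) :=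
        (tendsto_const_nhds.sub (hdl.div_const 100)).pow 2
      refine (tendsto_order.1 ht).1 _ ?_
      simp only [zero_div, sub_zero]
      linarith
    have h4 : ∀ᶠ n : ℕ in atTop, (Sum.inl n : Ix J) ∉ F := by
      rw [← Nat.cofinite_eq_atTop, Filter.eventually_cofinite]
      refine (F.finite_toSet.preimage (f := (Sum.inl : ℕ → Ix J))
        Sum.inl_injective.injOn).subset ?_
      intro n hn
      simpa using hn
    obtain ⟨n, hn1, hn2, hn3, hn4⟩ := (h1.and (h2.and (h3.and h4))).exists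
    obtain ⟨t, ht, htw, htz⟩ := hx n
    have htδ : t ∈ Ioo (0 : ℝ) δ := ⟨ht.1, lt_of_le_of_lt htw hn1⟩
    have hFt : ∑' a, y a ^ 2 - e < ∑ i ∈ F, z i t ^ 2 := hsub htδ
    have hz2 : (c - dl η n / 100) ^ 2 ≤ z (Sum.inl n) t ^ 2 := by
      have h5 : c - dl η n / 100 ≤ -z (Sum.inl n) t := by linarith
      have h6 := pow_le_pow_left₀ hn2.le h5 2
      rwa [neg_sq] at h6
    have hle : z (Sum.inl n) t ^ 2 + ∑ i ∈ F, z i t ^ 2 ≤ ∑' a, z a t ^ 2 := by
      classical
      have h7 := (hE t ht).1.sum_le_tsum (insert (Sum.inl n) F) fun i _ => sq_nonneg (z i t)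
      rwa [Finset.sum_insert hn4] at h7
    have hbig : a' < ∑' a, z a t ^ 2 := by
      have : E0 - a' = 4 * e := by rw [he]; ring
      linarith
    filter_upwards [Ioc_mem_nhdsGT ht.1] with s hs
    exact hbig.trans_le (hanti ⟨hs.1, hs.2.trans ht.2⟩ ht hs.2)
  · filter_upwards [hup] with t ht
    exact lt_of_le_of_lt (hE t ht).2 ha'

end Pool.Agent.Y810.LN
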